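import Mathlib
import Pool.Agent.H80.Luzin.Defs
import Pool.Agent.H80.Luzin.CompF

/-!
# A computable function which shrinks the non-weakly-3-random reals but fails Luzin's (N)
-/

namespace Pool.Agent.Results.MP_00b9ef_lc.ShrinksNonW3R

open MeasureTheory Set Pool.Agent.H80.Luzin

/-- the dyadic rationals -/
theorem dyadic_countable : (range (fun p : ℕ × ℕ => (p.1 : ℝ) / 2 ^ p.2)).Countable :=
  countable_range _

/-- the images of the null classes are null -/
theorem class_null {g : ℕ × ℕ × ℕ → ℕ × ℕ × ℕ} (hg : Computable g)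
    (hnull : volume (Pi03Class g) = 0) : volume (ff RR '' Pi03Class g) = 0 := by
  have hcov : Pi03Class g ⊆ (Pi03Class g \ range (fun p : ℕ × ℕ => (p.1 : ℝ) / 2 ^ p.2)) ∪
      range (fun p : ℕ × ℕ => (p.1 : ℝ) / 2 ^ p.2) := by
    intro z hz
    rw [mem_union, mem_sdiff]
    by_cases h : z ∈ range (fun p : ℕ × ℕ => (p.1 : ℝ) / 2 ^ p.2)
    · exact Or.inr h
    · exact Or.inl ⟨hz, h⟩
  refine measure_mono_null (image_mono hcov) ?_
  rw [image_union, measure_union_null_iff]
  constructor
  · apply image_null RR (measure_mono_null sdiff_subset hnull)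
    intro z hz hF
    rw [mem_sdiff] at hz
    apply class_bad hg hnull hz.1 hF
    intro i c hic
    apply hz.2
    rw [mem_range]
    exact ⟨(i, c), hic.symm⟩
  · exact (dyadic_countable.image _).measure_zero _

/-- the image of the complement of the weakly 3-random reals is null -/
theorem compl_null : volume (ff RR '' (Icc (0 : ℝ) 1 \ W3R)) = 0 := by
  have hcov : Icc (0 : ℝ) 1 \ W3R ⊆ ⋃ e : ℕ, {z | ∃ g, Computable g ∧ CodeOf e g ∧
      volume (Pi03Class g) = 0 ∧ z ∈ Pi03Class g} := by
    intro z hz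
    rw [mem_sdiff, mem_W3R] at hz
    obtain ⟨h1, h2⟩ := hz
    push Not at h2
    obtain ⟨g, hg, hnull, hz⟩ := h2 h1
    obtain ⟨e, he⟩ := exists_codeOf hg
    rw [mem_iUnion]
    refine ⟨e, ?_⟩
    rw [mem_ofPred_eq]
    exact ⟨g, hg, he, hnull, hz⟩
  refine measure_mono_null (image_mono hcov) ?_
  rw [image_iUnion, measure_iUnion_null_iff]
  intro e
  by_cases hex : ∃ g, Computable g ∧ CodeOf e g ∧ volume (Pi03Class g) = 0
  · obtain ⟨g₀, hg₀, he₀, hn₀⟩ := hex
    apply measure_mono_null (image_mono ?_) (class_null hg₀ hn₀)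
    intro z hz
    rw [mem_ofPred_eq] at hz
    obtain ⟨g, -, he, -, hz⟩ := hz
    have hgg : g = g₀ := by
      funext p
      obtain ⟨a, b, c⟩ := p
      have h1 := (he a b c).symm.trans (he₀ a b c)
      exact Encodable.encode_injective (Part.some_inj.1 h1)
    rw [← hgg]
    exact hz
  · have h0 : {z | ∃ g, Computable g ∧ CodeOf e g ∧ volume (Pi03Class g) = 0 ∧
        z ∈ Pi03Class g} ⊆ ∅ := by
      intro z hz
      rw [mem_ofPred_eq] at hz
      obtain ⟨g, h1, h2, h3, -⟩ := hz
      exact absurd ⟨g, h1, h2, h3⟩ hex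
    rw [subset_empty_iff] at h0
    rw [h0]
    simp

/-- There is a computable function on `[0,1]` which maps the set of the reals of `[0,1]` that
are not weakly 3-random to a null set, but which does not have Luzin's property (N). -/
theorem result : ∃ f : ℝ → ℝ, IsComputableOnUnit f ∧
    volume (f '' (Icc (0 : ℝ) 1 \ W3R)) = 0 ∧ ¬ LuzinN f := by
  refine ⟨ff RR, ff_computable RR_prim, compl_null, fun h => ?_⟩
  obtain ⟨K, hK, hK0, hfK⟩ := exists_null RR good_pos
  exact hfK (h K (hK.trans Fat_subset) hK0)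

end Pool.Agent.Results.MP_00b9ef_lc.ShrinksNonW3R
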